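import Mathlib
import Pool.Agent.V5helper56.DU.All

/-!
# Residually reducible representations: global images are images of decomposition groups

Let `p` be a prime, and let `K ⊂ ℚ̄` be a number field (totally complex if `p = 2`) with exactly one
prime above `p`, such that the class number of `𝓞_K[1/p]` is prime to `p`. Let `T` be a finite set of
primes of `K` not above `p` such that for each of them some `p`-unit of `K` is not a `p`-th power
modulo this prime, but is a `p`-th power modulo all others (the condition says that every extension of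
`K` of degree `p` which is unramified outside `T` and completely split at `p` is trivial; as a rule,
`T` can have as many elements as the group of `p`-units modulo `p`-th powers has generators).

Let `V` be a continuous `n`-dimensional representation of `Gal(ℚ̄/ℚ)` over a Noetherian local ring `A`
of residue characteristic `p`. Assume that over `K` the reduction of `V` is a successive extension of
copies of one character, and that the inertia groups over `K` at the primes `𝔮 ∤ p`, `𝔮 ∉ T`, with
`N 𝔮 ≡ 1 mod p` act by scalars. Then the decomposition group at `p` and the whole Galois group have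
the same projective image, over `K` and over `ℚ`. So `V` is irreducible if and only if its restriction
to the decomposition group at `p` is irreducible.

If `V` is irreducible and a subgroup of finite index of the decomposition group at `p` preserves a line
(in dimension two: the restriction of `V` to the decomposition group is potentially reducible; for
example, `V` is potentially ordinary), then `V` is potentially abelian. In dimension two the projective
image of `V` is finite or `V` is dihedral.

Examples are `K = ℚ`, `p` odd, and `T = {l}` for a prime number `l` such that `p` is not a `p`-th power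
modulo `l`. (The result `LocalImages` is about inertia groups and units instead of decomposition
groups and `p`-units; its conclusions are stronger and its hypotheses on `K` and `T` are stronger, for
example for `K = ℚ` the set `T` is empty there.)

Relation to the conjecture of Fontaine and Mazur. If the two-dimensional representation `V` in the
theorem is potentially semi-stable with distinct Hodge–Tate weights and potentially reducible on the
decomposition group at `p`, then its projective image is not finite, so it is dihedral, and it is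
induced from an algebraic Hecke character of an imaginary quadratic field: it is a twist of the
representation of a cusp form with complex multiplication. So the conjecture is true for these `V`; in
particular no such `V` is even. (This deduction from classical results is not part of the formal proof.)

Proof. Characters of `Gal(ℚ̄/K)` of order `p` which are trivial on the decomposition groups at `p` and
ramified at most at primes of `T` and at primes whose norm is not `1` modulo `p` are trivial: for a
cyclic extension `M/K` of degree `p` in which the primes above `p` split completely, the Herbrand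
quotient of the `p`-units of `M` shows that `p` times the index of the norms of `p`-units in the
`p`-units of `K` is at most `p ^ t`, where `t` is the number of ramified primes; but norms are `p`-th
powers modulo the ramified primes, and so the index is at least `p ^ t`. Since all primes above `p` are
conjugate over `K`, Burnside's theorem for finite `p`-groups shows that the decomposition group at `p`
is dense in the image, and it is compact.
-/

set_option autoImplicit false

namespace Pool.Agent.Results.MP_b583a4_nt.DecompositionImages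

open NumberField Matrix IsLocalRing

/-- An algebraic closure of `ℚ`. -/
abbrev QBar : Type := AlgebraicClosure ℚ

/-- The absolute Galois group of `ℚ`, with its Krull topology. -/
abbrev AbsGal : Type := QBar ≃ₐ[ℚ] QBar

/-- The ring of all algebraic integers. -/
def ZBar : Type := 𝓞 QBar

noncomputable instance : CommRing ZBar := inferInstanceAs (CommRing (𝓞 QBar))

/-- The action of the absolute Galois group on the ring of all algebraic integers. -/
noncomputable def gal (σ : AbsGal) : ZBar →+* ZBar :=
  MulSemiringAction.toRingHom AbsGal (𝓞 QBar) σ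

/-- Algebraic extensions of `ℚ` in `ℚ̄`. -/
abbrev Ext : Type := IntermediateField ℚ QBar

/-- The ring of integers of `K`. -/
def RingOf (K : Ext) : Type := 𝓞 K

noncomputable instance (K : Ext) : CommRing (RingOf K) := inferInstanceAs (CommRing (𝓞 K))

/-- The absolute Galois group of `K`. -/
noncomputable def GalOf (K : Ext) : Subgroup AbsGal := K.fixingSubgroup

/-- The restriction to `K` of a prime ideal of the ring of all algebraic integers. -/
noncomputable def below (K : Ext) (Q : Ideal ZBar) : Ideal (RingOf K) :=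
  Ideal.comap (algebraMap (𝓞 K) (𝓞 QBar)) Q

/-- The inertia group at the prime ideal `P` of the ring of all algebraic integers. -/
def Inertia (P : Ideal ZBar) : Set AbsGal := {σ | ∀ x : ZBar, gal σ x - x ∈ P}

/-- The decomposition group at the prime ideal `P` of the ring of all algebraic integers. -/
def Decomposition (P : Ideal ZBar) : Subgroup AbsGal where
  carrier := {σ | ∀ x : ZBar, gal σ x ∈ P ↔ x ∈ P}
  mul_mem' := by
    intro σ τ hσ hτ x
    have h : gal (σ * τ) x = gal σ (gal τ x) := mul_smul σ τ (show 𝓞 QBar from x)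
    rw [h]
    exact (hσ (gal τ x)).trans (hτ x)
  one_mem' := fun x => by
    have h : gal 1 x = x := one_smul AbsGal (show 𝓞 QBar from x)
    rw [h]
  inv_mem' := by
    intro σ hσ x
    have h := hσ (gal σ⁻¹ x)
    have h' : gal σ (gal σ⁻¹ x) = x := smul_inv_smul σ (show 𝓞 QBar from x)
    rw [h'] at h
    exact h.symm

/-- `K` has at most one prime above `p`. -/
def OnePrimeAbove (p : ℕ) (K : Ext) : Prop :=
  ∀ 𝔭 𝔮 : Ideal (RingOf K), 𝔭.IsPrime → 𝔮.IsPrime → (p : RingOf K) ∈ 𝔭 → (p : RingOf K) ∈ 𝔮 → 𝔭 = 𝔮

/-- The class number of `𝓞_K[1/p]` is prime to `p`: for each ideal `I ≠ 0` of `𝓞_K` the product of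
`I ^ n`, for some `n` prime to `p`, and of an ideal dividing a power of `p` is a principal ideal. -/
def ClassNumberAwayPrime (p : ℕ) (K : Ext) : Prop :=
  ∀ I : Ideal (RingOf K), I ≠ ⊥ → ∃ (n m : ℕ) (a : RingOf K) (J : Ideal (RingOf K)), ¬ p ∣ n ∧
    J ∣ Ideal.span {(p : RingOf K)} ^ m ∧ Ideal.span {a} = I ^ n * J

/-- `𝔭` is a prime of `K` not above `p`, and some `p`-unit `u` of `K`, that is, `u ∈ 𝓞_K` divides a power
of `p`, is not a `p`-th power modulo `𝔭`, but is a `p`-th power modulo all other members of `T`. -/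
def Independent (p : ℕ) (K : Ext) (T : Set (Ideal (RingOf K))) (𝔭 : Ideal (RingOf K)) : Prop :=
  𝔭.IsMaximal ∧ (p : RingOf K) ∉ 𝔭 ∧ ∃ u : RingOf K, (∃ m : ℕ, u ∣ (p : RingOf K) ^ m) ∧
    (∀ z : RingOf K, u - z ^ p ∉ 𝔭) ∧ ∀ 𝔭' ∈ T, 𝔭' ≠ 𝔭 → ∃ z : RingOf K, u - z ^ p ∈ 𝔭'

/-- `K` is a number field with one prime above `p`, the class number of `𝓞_K[1/p]` is prime to `p`, `K`
is totally complex if `p = 2`, and `T` is a finite set of primes of `K` not above `p` such that for all
`𝔭 ∈ T` some `p`-unit of `K` is a `p`-th power modulo all members of `T` but `𝔭`. -/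
structure Good (p : ℕ) (K : Ext) (T : Set (Ideal (RingOf K))) : Prop where
  finite : FiniteDimensional ℚ K
  infinity : p ≠ 2 ∨ IsTotallyComplex K
  one : OnePrimeAbove p K
  cls : ClassNumberAwayPrime p K
  fin : T.Finite
  tame : ∀ 𝔭 ∈ T, Independent p K T 𝔭

/-- `Q` is not above `p`, and its restriction to `K` is not in `T` and its norm is `1` modulo `p`. -/
def Away (p : ℕ) (K : Ext) (T : Set (Ideal (RingOf K))) (Q : Ideal ZBar) : Prop :=
  Q.IsMaximal ∧ (p : ZBar) ∉ Q ∧ below K Q ∉ T ∧ p ∣ Nat.card (RingOf K ⧸ below K Q) - 1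

section
variable {A : Type} [CommRing A] {n : ℕ}

/-- The matrix `ρ σ`. -/
noncomputable def mat (ρ : AbsGal →* GL (Fin n) A) (σ : AbsGal) : Matrix (Fin n) (Fin n) A := ρ σ

/-- The matrix `X` modulo the maximal ideal has only one eigenvalue, the reduction of `a`. -/
def OneEigenvalue [IsLocalRing A] (a : A) (X : Matrix (Fin n) (Fin n) A) : Prop :=
  ∃ M : ℕ, ∀ i j, ((X - a • (1 : Matrix (Fin n) (Fin n) A)) ^ M) i j ∈ maximalIdeal A

/-- `ρ` is continuous, for all `σ` in the absolute Galois group of `K` the reduction of `ρ σ` has only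
one eigenvalue, which lifts to `a ∈ A`, and the inertia groups over `K` at all primes not above `p` and
not in `T` whose norm is `1` modulo `p` act by scalars. -/
structure Admissible [IsLocalRing A] [TopologicalSpace A] (p : ℕ) (K : Ext)
    (T : Set (Ideal (RingOf K))) (ρ : AbsGal →* GL (Fin n) A) : Prop where
  cont : ∀ i j, Continuous fun σ => mat ρ σ i j
  res : ∀ σ ∈ GalOf K, ∃ a : Aˣ, OneEigenvalue (a : A) (mat ρ σ)
  ram : ∀ Q, Away p K T Q → ∀ σ ∈ Inertia Q, σ ∈ GalOf K →
    ∃ c : A, mat ρ σ = c • (1 : Matrix (Fin n) (Fin n) A)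

/-- The stronger condition without scalars: over `K` the representation `ρ` is residually unipotent,
and unramified at all primes not above `p` and not in `T` whose norm is `1` modulo `p`. -/
def Unipotent [IsLocalRing A] (p : ℕ) (K : Ext) (T : Set (Ideal (RingOf K)))
    (ρ : AbsGal →* GL (Fin n) A) : Prop :=
  (∀ σ ∈ GalOf K, OneEigenvalue 1 (mat ρ σ)) ∧
  ∀ Q, Away p K T Q → ∀ σ ∈ Inertia Q, σ ∈ GalOf K → mat ρ σ = 1

/-- The action of `σ` on `V = F ^ n`. -/
noncomputable def act (F : Type) [Field F] [Algebra A F] (ρ : AbsGal →* GL (Fin n) A) (σ : AbsGal)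
    (v : Fin n → F) : Fin n → F :=
  ((mat ρ σ).map (algebraMap A F)) *ᵥ v

/-- The restriction of `V` to `D` is irreducible. -/
def IrreducibleOn (F : Type) [Field F] [Algebra A F] (ρ : AbsGal →* GL (Fin n) A) (D : Set AbsGal) :
    Prop :=
  ∀ W : Submodule F (Fin n → F), (∀ σ ∈ D, ∀ w ∈ W, act F ρ σ w ∈ W) → W = ⊥ ∨ W = ⊤

/-- `v` is an eigenvector for all members of `D`. -/
def Eigenvector (F : Type) [Field F] [Algebra A F] (ρ : AbsGal →* GL (Fin n) A) (D : Set AbsGal)
    (v : Fin n → F) : Prop :=
  v ≠ 0 ∧ ∀ δ ∈ D, ∃ c : F, act F ρ δ v = c • v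

/-- A subgroup of finite index of the group `I` preserves a line of `V`; in dimension two this says
that the restriction of `V` to `I` is potentially reducible. -/
def PotentialLine (F : Type) [Field F] [Algebra A F] (ρ : AbsGal →* GL (Fin n) A)
    (I : Subgroup AbsGal) : Prop :=
  ∃ (I' : Subgroup AbsGal) (v : Fin n → F), I' ≤ I ∧ I'.relIndex I ≠ 0 ∧ Eigenvector F ρ I' v

/-- `V` is potentially abelian: the image of some open normal subgroup is commutative. -/
def PotentiallyAbelian (ρ : AbsGal →* GL (Fin n) A) : Prop :=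
  ∃ S : Subgroup AbsGal, S.Normal ∧ S.FiniteIndex ∧ IsOpen (S : Set AbsGal) ∧
    ∀ σ ∈ S, ∀ τ ∈ S, ρ (σ * τ) = ρ (τ * σ)

/-- The projective image is finite: an open normal subgroup acts by scalars. -/
def ProjectivelyFinite (F : Type) [Field F] [Algebra A F] (ρ : AbsGal →* GL (Fin n) A) : Prop :=
  ∃ S : Subgroup AbsGal, S.Normal ∧ S.FiniteIndex ∧ IsOpen (S : Set AbsGal) ∧
    ∀ σ ∈ S, ∃ c : F, ∀ w, act F ρ σ w = c • w

/-- The absolute Galois group of a quadratic field preserves a line; in dimension two, for irreducible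
`V`, this says that `V` is dihedral. -/
def Dihedral (F : Type) [Field F] [Algebra A F] (ρ : AbsGal →* GL (Fin n) A) : Prop :=
  ∃ (T : Subgroup AbsGal) (v : Fin n → F), T.index = 2 ∧ IsOpen (T : Set AbsGal) ∧
    Eigenvector F ρ T v

/-- The projective image of `E` is contained in the projective image of `D`. -/
def ProjectiveImage (ρ : AbsGal →* GL (Fin n) A) (D E : Set AbsGal) : Prop :=
  ∀ g ∈ E, ∃ δ ∈ D, ∃ c : A, mat ρ g = c • mat ρ δ

/-- The image of `E` is contained in the image of `D`. -/
def Image (ρ : AbsGal →* GL (Fin n) A) (D E : Set AbsGal) : Prop :=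
  ∀ g ∈ E, ∃ δ ∈ D, mat ρ g = mat ρ δ

/-- If `V` is irreducible, its restriction to the decomposition group at `P` is irreducible, and if a
subgroup of finite index of the decomposition group at `P` preserves a line, then `V` is potentially
abelian, and in dimension two it is projectively finite or dihedral. -/
def Irreducibility (F : Type) [Field F] [Algebra A F] (ρ : AbsGal →* GL (Fin n) A)
    (P : Ideal ZBar) : Prop :=
  IrreducibleOn F ρ Set.univ → IrreducibleOn F ρ (Decomposition P) ∧
    (PotentialLine F ρ (Decomposition P) →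
      PotentiallyAbelian ρ ∧ (n = 2 → ProjectivelyFinite F ρ ∨ Dihedral F ρ))

/-- The conclusion of the theorem for the representation `ρ` and the prime `P` above `p`:
* the projective images of the decomposition group at `P` over `K` and of `Gal(ℚ̄/K)` agree;
* the projective images of the decomposition group at `P` and of `Gal(ℚ̄/ℚ)` agree;
* the same for the images themselves, if `ρ` is unipotent;
* the statements on irreducible `V` in the preceding definition. -/
structure GlobalIsLocal [IsLocalRing A] (p : ℕ) (K : Ext) (T : Set (Ideal (RingOf K)))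
    (ρ : AbsGal →* GL (Fin n) A) (P : Ideal ZBar) : Prop where
  overK : ProjectiveImage ρ (Decomposition P ⊓ GalOf K : Subgroup AbsGal) (GalOf K)
  overQ : ProjectiveImage ρ (Decomposition P) Set.univ
  linear_overK : Unipotent p K T ρ → Image ρ (Decomposition P ⊓ GalOf K : Subgroup AbsGal) (GalOf K)
  linear_overQ : Unipotent p K T ρ → Image ρ (Decomposition P) Set.univ
  irreducible : ∀ (F : Type) [Field F] [Algebra A F] [IsFractionRing A F], Irreducibility F ρ P

end

/-- The field of rational numbers is good for `p ≠ 2`, with `T` the set of the prime `l`, if `p` is not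
a `p`-th power modulo `l`. -/
def RationalsGood (p : ℕ) : Prop :=
  p ≠ 2 → ∀ l : ℕ, l.Prime → (∀ x : ZMod l, x ^ p ≠ (p : ZMod l)) →
    Good p ⊥ {𝔮 | 𝔮.IsMaximal ∧ (l : RingOf ⊥) ∈ 𝔮}

/-! ### Proofs -/

theorem Good.nf {p : ℕ} {K : Ext} {T : Set (Ideal (RingOf K))} (hG : Good p K T) : NumberField K := by
  haveI := hG.finite
  exact NumberField.mk

theorem away {p : ℕ} {K : Ext} [NumberField K] {T : Set (Ideal (RingOf K))} {Q : Ideal (𝓞 QBar)}
    (hQ : Q.IsMaximal) (hpQ : (p : 𝓞 QBar) ∉ Q) (hQT : Q.under (𝓞 K) ∉ T)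
    (hQn : p ∣ Ideal.absNorm (Q.under (𝓞 K)) - 1) : Away p K T Q := by
  refine ⟨hQ, hpQ, hQT, ?_⟩
  rw [Ideal.absNorm_apply, Submodule.cardQuot_apply] at hQn
  exact hQn

theorem global {p : ℕ} [Fact p.Prime] {K : Ext} {T : Set (Ideal (RingOf K))} (hG : Good p K T)
    {A : Type} [CommRing A] [IsLocalRing A] [IsNoetherianRing A] [TopologicalSpace A]
    (hA : IsAdic (maximalIdeal A)) (h2 : (p : A) ∈ maximalIdeal A) {n : ℕ}
    {ρ : AbsGal →* GL (Fin n) A} (hρ : Admissible p K T ρ)
    {P : Ideal (𝓞 QBar)} (hP : P.IsMaximal) (hpP : (p : 𝓞 QBar) ∈ P) : GlobalIsLocal p K T ρ P := by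
  haveI := hG.finite
  haveI := hG.nf
  have hDd : ∀ δ, δ ∈ Pool.Agent.V5helper56.LI.dec P ↔ δ ∈ Decomposition P := fun δ =>
    forall_congr' fun x => Iff.comm
  have hI : ∀ g ∈ K.fixingSubgroup, ∃ δ ∈ Pool.Agent.V5helper56.LI.dec P ⊓ K.fixingSubgroup,
      ∃ c : A, (ρ g : Matrix (Fin n) (Fin n) A) = c • (ρ δ : Matrix (Fin n) (Fin n) A) := fun g hg =>
    Pool.Agent.V5helper56.DU.image_decK_proj Pool.Agent.V5helper56.DU.chr K hG.infinity hG.one hG.cls
      hG.fin hG.tame hA h2 hρ.cont hρ.res
      (fun Q hQ hpQ hQT hQn σ hσ hσK => hρ.ram Q (away hQ hpQ hQT hQn) σ hσ hσK) hP hpP hg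
  have hD : ∀ g, ∃ δ ∈ Decomposition P,
      ∃ c : A, (ρ g : Matrix (Fin n) (Fin n) A) = c • (ρ δ : Matrix (Fin n) (Fin n) A) := by
    intro g
    obtain ⟨δ, hδ, h⟩ := Pool.Agent.V5helper56.DU.image_decG_proj K hG.one hP hpP hI g
    exact ⟨δ, (hDd δ).1 hδ, h⟩
  have hU : Unipotent p K T ρ →
      Image ρ (Decomposition P ⊓ GalOf K : Subgroup AbsGal) (GalOf K) ∧
      Image ρ (Decomposition P) Set.univ := by
    intro hU
    have hI1 : ∀ g ∈ K.fixingSubgroup, ∃ δ ∈ Pool.Agent.V5helper56.LI.dec P ⊓ K.fixingSubgroup,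
        ρ δ = ρ g := fun g hg =>
      Pool.Agent.V5helper56.DU.image_decK Pool.Agent.V5helper56.DU.chr K hG.infinity hG.one hG.cls
        hG.fin hG.tame hA h2 hρ.cont
        (fun σ hσ => by
          obtain ⟨M, hM⟩ := hU.1 σ hσ
          rw [one_smul] at hM
          exact ⟨M, hM⟩)
        (fun Q hQ hpQ hQT hQn σ hσ hσK => Units.ext (hU.2 Q (away hQ hpQ hQT hQn) σ hσ hσK)) hP hpP hg
    refine ⟨fun g hg => ?_, fun g _ => ?_⟩
    · obtain ⟨δ, hδ, h⟩ := hI1 g hg
      exact ⟨δ, ⟨(hDd δ).1 hδ.1, hδ.2⟩, congrArg Units.val h.symm⟩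
    · obtain ⟨δ, hδ, h⟩ := Pool.Agent.V5helper56.DU.image_decG K hG.one hP hpP hI1 g
      exact ⟨δ, (hDd δ).1 hδ, congrArg Units.val h.symm⟩
  refine ⟨fun g hg => ?_, fun g _ => hD g, fun h => (hU h).1, fun h => (hU h).2,
    fun F _ _ _ hirr => ⟨fun W hW => hirr W fun σ _ w hw => ?_, fun hL => ?_⟩⟩
  · obtain ⟨δ, hδ, h⟩ := hI g hg
    exact ⟨δ, ⟨(hDd δ).1 hδ.1, hδ.2⟩, h⟩
  · obtain ⟨δ, hδ, c, hc⟩ := hD σ
    have h1 : act F ρ σ w = (algebraMap A F c) • act F ρ δ w := by
      unfold act mat
      rw [hc, ← smul_mulVec]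
      congr 1
      ext i j
      rw [Matrix.map_apply, Matrix.smul_apply, Matrix.smul_apply, smul_eq_mul, smul_eq_mul, map_mul,
        Matrix.map_apply]
    rw [h1]
    exact W.smul_mem _ (hW δ hδ w hw)
  · obtain ⟨I', v, hI', hfin, hv, hline⟩ := hL
    have hNo : IsOpen (K.fixingSubgroup : Set AbsGal) := IntermediateField.fixingSubgroup_isOpen K
    have hNf : Finite (AbsGal ⧸ K.fixingSubgroup) := Subgroup.quotient_finite_of_isOpen _ hNo
    have hDD : Pool.Agent.V5helper56.LI.dec P = Decomposition P := Subgroup.ext hDd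
    rw [hDD] at hI
    refine ⟨?_, ?_⟩
    · obtain ⟨S, s1, s2, s3, s4⟩ := Pool.Agent.V5helper56.LI.pot_line (F := F) K.fixingSubgroup
        (Decomposition P) I' hNf hA hρ.cont hI hfin
        (fun W hW => hirr W fun σ _ => hW σ) hv (fun δ hδ _ => hline δ hδ)
      exact ⟨S, s1, s2, s3, fun σ hσ τ hτ => by rw [map_mul, map_mul]; exact s4 σ hσ τ hτ⟩
    rintro rfl
    rcases Pool.Agent.V5helper56.LI.pot_red (F := F) K.fixingSubgroup
      (Decomposition P) I' hNf hA hρ.cont hI hfin
      (fun W hW => hirr W fun σ _ => hW σ) hv (fun δ hδ _ => hline δ hδ) with h | h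
    · exact Or.inl h
    · obtain ⟨T', h3, h4, h5⟩ := h
      exact Or.inr ⟨T', v, h3, h4, hv, h5⟩

theorem rationalsGood (p : ℕ) [hp : Fact p.Prime] : RationalsGood p := by
  intro hp2 l hl hpl
  obtain ⟨h1, h2, h3, h4, h5⟩ := Pool.Agent.V5helper56.DU.rat_good (p := p) hl hpl
  exact ⟨inferInstance, Or.inl hp2, h1, h2, h3, fun 𝔮 h𝔮 => ⟨h𝔮.1, h4 𝔮 h𝔮.1 h𝔮.2,
    (p : RingOf ⊥), ⟨1, by rw [pow_one]⟩, (h5 𝔮 h𝔮.1 h𝔮.2).1, fun 𝔮' h𝔮' hne =>
      absurd ((h5 𝔮 h𝔮.1 h𝔮.2).2 𝔮' h𝔮'.1 h𝔮'.2) hne⟩⟩

/-- **Global images are images of decomposition groups, for residually unipotent representations of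
`Gal(ℚ̄/ℚ)`.** -/
theorem result (p : ℕ) [Fact p.Prime] :
    (∀ (K : Ext) (T : Set (Ideal (RingOf K))), Good p K T →
      ∀ (A : Type) [CommRing A] [IsLocalRing A] [IsNoetherianRing A] [TopologicalSpace A],
      IsAdic (maximalIdeal A) → (p : A) ∈ maximalIdeal A →
      ∀ (n : ℕ) (ρ : AbsGal →* GL (Fin n) A), Admissible p K T ρ →
      ∀ P : Ideal ZBar, P.IsMaximal → (p : ZBar) ∈ P → GlobalIsLocal p K T ρ P) ∧
    RationalsGood p :=
  ⟨fun _ _ hG _ _ _ _ _ hA h2 _ _ hρ _ hP hpP => global hG hA h2 hρ hP hpP, rationalsGood p⟩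

end Pool.Agent.Results.MP_b583a4_nt.DecompositionImages
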