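import Pool.Agent.V5helper57.OT.Glue
import Pool.Agent.V5helper9.OT.NP
import Pool.Agent.V5helper18.OT.NIL
import Pool.Agent.V5helper28.OT.TRI
import Pool.Agent.V5helper44.OT.NT
import Pool.Agent.V5helper70.OT.TWO
import Pool.Agent.V5helper70.OT.PAR

/-!
# Ordinary two-dimensional representations with scalar reduction: an explicit polynomial for three tame primes

Let `p` be an odd prime and `q_0, q_1, q_2` distinct primes `≡ 1 mod p`, `≢ 1 mod p ^ 2`, with the linking numbers `A_ij = χ_j(q_i)`,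
`c_j = χ_j(p)` in `ℤ/p`, where `χ_j` is a nontrivial homomorphism from `(ℤ/q_j)ˣ` to `ℤ/p`. Let `u_i = (q_i - 1) / p` and
`b_ij = A_ij / u_i`. If `α = b_20 - b_10`, `β = b_01 - b_21`, `γ = b_12 - b_02`, the three numbers
`b_ij c_i - b_ji c_j` and `Φ = R ^ 2 + (α β γ - 4 P) Q` do not vanish in `ℤ/p`, where
`R = (b_10 c_1 + b_01 c_0) γ + (b_10 c_2 + b_02 c_0) β + (b_12 c_1 + b_01 c_2) α`,
`P = b_01 b_10 γ + b_02 b_10 β + b_01 b_12 α`, `Q = c_0 c_1 γ + c_0 c_2 β + c_1 c_2 α`, then all continuous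
`ρ : Gal(ℚbar/ℚ) → GL_2(A)` with the following properties are reducible: `A` is a complete discrete valuation ring with finite residue
field in which `p` has valuation `e ≥ 1`, the reduction of `ρ` is twice a character, `ρ` is unramified outside `p`, the `q_i` and
finitely many primes not congruent to `1` modulo `p`, the decomposition group at `p` preserves a line, and `2 e < p - 1` or
the inertia groups at the `q_i` act unipotently.

Proof. The criterion of the starting library (`OrdinaryScalar`) asks that every system of trace zero matrices `C`, `T_0`, `T_1`,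
`T_2` over the residue field with `T_i ^ 2 = 0`, `[u_i C + ∑_j A_ij T_j, T_i] = ε u_i T_i` (`ε = 0, 1`), such that `C` and
`∑ c_j T_j` have a common eigenvector, has a common eigenvector. We write `T_i = s_i v_i ω(v_i, ·)`. If two of the `v_i` are parallel
then all are, since `b_ij ≠ b_kj`. Otherwise `ε = 1`, the lengths `s_i` are determined by `(b_ij - b_kj) s_j ω_ij ω_jk = ω_ki`, and `C`
and `∑ c_j T_j` become two explicit binary quadratic forms; their resultant is `Φ` up to a nonzero factor.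
-/

set_option autoImplicit false

open NumberField Matrix IsLocalRing

namespace Pool.Agent.Results.MP_b583a4_nt.LinkingPolynomial

open Finset Filter
open Pool.Agent.W569.TG (lk)
open Pool.Agent.Q202.RT Pool.Agent.Q202.QT
open Pool.Agent.V5helper57.CP (Lk Adm step)
open Pool.Agent.V5helper57.OT (GoodA S_NT' triple)
open Pool.Agent.Results.MP_b583a4_nt.OrdinaryScalar (UnramifiedOutside ResiduallyScalar Decomposition StableLine Tame
  UnipotentInertia linking)

/-- `AlwaysReducible p T`: for all finite sets `S` of primes `l ≠ p` whose members congruent to `1` modulo `p` are in `T`, all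
complete discrete valuation rings `A` with finite residue field in which `p` has valuation `e ≥ 1`, every continuous
`ρ : Gal(ℚbar/ℚ) → GL_2(A)`, unramified outside `S` and `p`, residually twice a character, such that `2 e < p - 1` or the inertia
groups at the primes in `S` congruent to `1` modulo `p` act unipotently, and such that the decomposition group at a prime above
`p` preserves a line, preserves a line. -/
def AlwaysReducible (p : ℕ) (T : Set ℕ) : Prop :=
  ∀ S : Finset ℕ, (∀ l ∈ S, l.Prime ∧ l ≠ p) → (∀ l ∈ S, p ∣ l - 1 → l ∈ T) →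
    ∀ (A : Type) [CommRing A] [IsDomain A] [IsDiscreteValuationRing A] [IsAdicComplete (maximalIdeal A) A]
      [TopologicalSpace A], IsAdic (maximalIdeal A) → Finite (ResidueField A) →
    ∀ e : ℕ, 1 ≤ e → (p : A) ∈ maximalIdeal A ^ e → (p : A) ∉ maximalIdeal A ^ (e + 1) →
    ∀ ρ : Gal(AlgebraicClosure ℚ/ℚ) →* GL (Fin 2) A, Continuous ρ → UnramifiedOutside p S ρ → ResiduallyScalar ρ →
      (2 * e < p - 1 ∨ UnipotentInertia p S ρ) →
      ∀ P : Ideal (𝓞 (AlgebraicClosure ℚ)), P.IsMaximal → (p : 𝓞 (AlgebraicClosure ℚ)) ∈ P →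
        StableLine ρ (Decomposition P) → StableLine ρ Set.univ

/-- The condition on `u i = (q_i - 1) / p`, `A i j = χ_j(q_i)`, `c j = χ_j(p)`. -/
def Generic {F : Type} [Field F] (u : Fin 3 → F) (A : Fin 3 → Fin 3 → F) (c : Fin 3 → F) : Prop :=
  let b : Fin 3 → Fin 3 → F := fun i j => A i j / u i
  let α := b 2 0 - b 1 0
  let β := b 0 1 - b 2 1
  let γ := b 1 2 - b 0 2
  let R := (b 1 0 * c 1 + b 0 1 * c 0) * γ + (b 1 0 * c 2 + b 0 2 * c 0) * β + (b 1 2 * c 1 + b 0 1 * c 2) * α
  let P := b 0 1 * b 1 0 * γ + b 0 2 * b 1 0 * β + b 0 1 * b 1 2 * α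
  let Q := c 0 * c 1 * γ + c 0 * c 2 * β + c 1 * c 2 * α
  α ≠ 0 ∧ β ≠ 0 ∧ γ ≠ 0 ∧ (∀ i j, i ≠ j → b i j * c i ≠ b j i * c j) ∧ R ^ 2 + (α * β * γ - 4 * P) * Q ≠ 0

theorem nt' : S_NT' := Pool.Agent.V5helper44.OT.t_NT Pool.Agent.V5helper18.OT.NIL.t_NIL Pool.Agent.V5helper70.OT.t_TWO
  Pool.Agent.V5helper70.OT.t_PAR Pool.Agent.V5helper28.OT.t_TRI

theorem goodA_of {F : Type} [Field F] {u : Fin 3 → F} {A : Fin 3 → Fin 3 → F} {c : Fin 3 → F} (h : Generic u A c) :
    GoodA u A c := by
  obtain ⟨h1, h2, h3, h4, h5⟩ := h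
  exact ⟨fun h => h1 (sub_eq_zero.2 h), fun h => h2 (sub_eq_zero.2 h), fun h => h3 (sub_eq_zero.2 h), h4 0 1 (by decide),
    h4 0 2 (by decide), h4 1 2 (by decide), h5⟩

section
variable {p : ℕ} [hpF : Fact p.Prime]

/-- the criterion -/
theorem crit (hp2 : p ≠ 2) (χ : ∀ j : ℕ, (ZMod j)ˣ →* Multiplicative (ZMod p)) (q : Fin 3 → ℕ)
    (hinj : Function.Injective q) (hq : ∀ i, (q i).Prime ∧ p ∣ q i - 1 ∧ ¬ p ^ 2 ∣ q i - 1 ∧ ∃ x, χ (q i) x ≠ 1)
    (hG : Generic (F := ZMod p) (fun i => ((q i - 1) / p : ℕ)) (fun i j => linking (ZMod p) (q j) (q i) (χ (q j)))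
      (fun j => linking (ZMod p) (q j) p (χ (q j)))) : AlwaysReducible p (Set.range q) := by
  have hp : p.Prime := hpF.out
  have e : ∀ j l : ℕ, linking (ZMod p) j l (χ j) = lk χ l j := by
    intro j l
    rw [Pool.Agent.V5helper57.OT.linking_lk χ j l, ZMod.castHom_self, RingHom.id_apply]
  simp only [e] at hG
  refine triple nt' Pool.Agent.V5helper9.OT.t_NP hp2 χ q (fun i => (hq i).2.2.2) hinj ?_ (goodA_of hG) _ le_rfl
  intro i h
  unfold lv at h
  rw [ZMod.natCast_eq_zero_iff] at h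
  apply (hq i).2.2.1
  obtain ⟨m, hm⟩ := h
  exact ⟨m, by rw [pow_two, mul_assoc, ← hm, Nat.mul_div_cancel' (hq i).2.1]⟩

end

/-- **Ordinary representations with scalar reduction, three tame primes: the criterion.** -/
theorem result (p : ℕ) [Fact p.Prime] (hp2 : p ≠ 2) (χ : ∀ j : ℕ, (ZMod j)ˣ →* Multiplicative (ZMod p)) (q : Fin 3 → ℕ)
    (hinj : Function.Injective q) (hq : ∀ i, (q i).Prime ∧ p ∣ q i - 1 ∧ ¬ p ^ 2 ∣ q i - 1 ∧ ∃ x, χ (q i) x ≠ 1)
    (hG : Generic (F := ZMod p) (fun i => ((q i - 1) / p : ℕ)) (fun i j => linking (ZMod p) (q j) (q i) (χ (q j)))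
      (fun j => linking (ZMod p) (q j) p (χ (q j)))) : AlwaysReducible p (Set.range q) :=
  crit hp2 χ q hinj hq hG

end Pool.Agent.Results.MP_b583a4_nt.LinkingPolynomial
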