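import Mathlib
import Pool.Agent.V5helper56.LI.Img
import Pool.Agent.V5helper56.LI.Cyc

/-!
# Residually reducible representations: global images are local

Let `p` be a prime, and let `K ⊂ ℚ̄` be a number field (totally complex if `p = 2`) with exactly one
prime above `p` and whose class number is prime to `p`. Let `T` be a finite set of primes of `K` not
above `p` such that for each of them some unit of `K` is not a `p`-th power modulo this prime, but is
a `p`-th power modulo all others (`T = ∅` is allowed; the condition says that the ray class number of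
`K` with conductor `∏ T` is prime to `p`).

Let `V` be a continuous `n`-dimensional representation of `Gal(ℚ̄/ℚ)` over a Noetherian local ring `A`
of residue characteristic `p`. Assume that over `K` the reduction of `V` is a successive extension of
copies of one character, and that the inertia groups over `K` at the primes `𝔮 ∤ p`, `𝔮 ∉ T`, with
`N 𝔮 ≡ 1 mod p` act by scalars. Then the inertia group at `p` over `K` and `Gal(ℚ̄/K)` have the same
projective image, and so have the decomposition group at `p` and `Gal(ℚ̄/ℚ)`. So `V` is irreducible if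
and only if its restriction to the decomposition group at `p` is irreducible.

If `V` is irreducible and a subgroup of finite index of the inertia group at `p` preserves a line (in
dimension two: the restriction of `V` to the inertia group is potentially reducible; for example, `V`
is potentially ordinary, or locally induced from a character of a quadratic extension of `ℚ_p`), then
`V` is potentially abelian. In dimension two the projective image of `V` is finite or `V` is dihedral.

Examples are the subfields `K` of `ℚ(ζ_{p ^ r})`, `p` odd, of class number prime to `p`, with `T = ∅`.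
If `p` is regular, this is the case for `ℚ(ζ_p)`; if `p` satisfies Vandiver's conjecture, it is the
case for the maximal real subfield of `ℚ(ζ_p)`, and the theorem deals with even representations. For
regular `p` and `K = ℚ(ζ_p)` it is possible to admit one prime number `q` which is a primitive root
modulo `p` with `q ^ (p - 1) ≢ 1 mod p ^ 2`.

Relation to the conjecture of Fontaine and Mazur. If the two-dimensional representation `V` in the
theorem is potentially semi-stable with distinct Hodge–Tate weights and potentially reducible on the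
inertia group at `p`, then its projective image is not finite, so it is dihedral, and it is induced
from an algebraic Hecke character of an imaginary quadratic field: it is a twist of the representation
of a cusp form with complex multiplication. So the conjecture is true for these `V`; in particular no
such `V` is even. (This deduction from classical results is not part of the formal proof.)

Proof. Characters of `Gal(ℚ̄/K)` of order `p` which are ramified at most at primes of `T` and at primes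
whose norm is not `1` modulo `p` are trivial: for a cyclic extension `M/K` of degree `p` the Herbrand
quotient of the units of `M` shows that `p` times the index of the norms of units in the units of `K`
is at most `p ^ t`, where `t` is the number of ramified primes; but norms are `p`-th powers modulo the
ramified primes, and so the index is at least `p ^ t`. Since all primes above `p` are conjugate over
`K`, Burnside's theorem for finite `p`-groups shows that the inertia group at `p` is dense in the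
image, and it is compact.
-/

set_option autoImplicit false

namespace Pool.Agent.Results.MP_b583a4_nt.LocalImages

open NumberField Matrix IsLocalRing

/-- An algebraic closure of `ℚ`. -/
abbrev QBar : Type := AlgebraicClosure ℚ

/-- The absolute Galois group of `ℚ`, with its Krull topology. -/
abbrev AbsGal : Type := QBar ≃ₐ[ℚ] QBar

/-- The ring of all algebraic integers. -/
def ZBar : Type := 𝓞 QBar

noncomputable instance : CommRing ZBar := inferInstanceAs (CommRing (𝓞 QBar))

/-- The action of the absolute Galois group on the ring of all algebraic integers. -/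
noncomputable def gal (σ : AbsGal) : ZBar →+* ZBar :=
  MulSemiringAction.toRingHom AbsGal (𝓞 QBar) σ

/-- Algebraic extensions of `ℚ` in `ℚ̄`. -/
abbrev Ext : Type := IntermediateField ℚ QBar

/-- The ring of integers of `K`. -/
def RingOf (K : Ext) : Type := 𝓞 K

noncomputable instance (K : Ext) : CommRing (RingOf K) := inferInstanceAs (CommRing (𝓞 K))

/-- The absolute Galois group of `K`. -/
noncomputable def GalOf (K : Ext) : Subgroup AbsGal := K.fixingSubgroup

/-- The restriction to `K` of a prime ideal of the ring of all algebraic integers. -/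
noncomputable def below (K : Ext) (Q : Ideal ZBar) : Ideal (RingOf K) :=
  Ideal.comap (algebraMap (𝓞 K) (𝓞 QBar)) Q

/-- The inertia group at the prime ideal `P` of the ring of all algebraic integers. -/
def Inertia (P : Ideal ZBar) : Subgroup AbsGal where
  carrier := {σ | ∀ x : ZBar, gal σ x - x ∈ P}
  mul_mem' := by
    intro σ τ hσ hτ x
    have h := P.add_mem (hσ (gal τ x)) (hτ x)
    rwa [sub_add_sub_cancel] at h
  one_mem' := fun x => by
    have h : gal 1 x = x := one_smul AbsGal (show 𝓞 QBar from x)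
    rw [h, sub_self]; exact P.zero_mem
  inv_mem' := by
    intro σ hσ x
    have h := P.neg_mem (hσ (gal σ⁻¹ x))
    have h' : gal σ (gal σ⁻¹ x) = x := smul_inv_smul σ (show 𝓞 QBar from x)
    rwa [h', neg_sub] at h

/-- The decomposition group at the prime ideal `P` of the ring of all algebraic integers. -/
def Decomposition (P : Ideal ZBar) : Set AbsGal := {σ | ∀ x : ZBar, gal σ x ∈ P ↔ x ∈ P}

/-- `K` has at most one prime above `p`. -/
def OnePrimeAbove (p : ℕ) (K : Ext) : Prop :=
  ∀ 𝔭 𝔮 : Ideal (RingOf K), 𝔭.IsPrime → 𝔮.IsPrime → (p : RingOf K) ∈ 𝔭 → (p : RingOf K) ∈ 𝔮 → 𝔭 = 𝔮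

/-- `𝔭` is a prime of `K` not above `p`, and some unit of `K` is not a `p`-th power modulo `𝔭`, but is
a `p`-th power modulo all other members of `T`. -/
def Independent (p : ℕ) (K : Ext) (T : Set (Ideal (RingOf K))) (𝔭 : Ideal (RingOf K)) : Prop :=
  𝔭.IsMaximal ∧ (p : RingOf K) ∉ 𝔭 ∧ ∃ u : RingOf K, IsUnit u ∧ (∀ z : RingOf K, u - z ^ p ∉ 𝔭) ∧
    ∀ 𝔭' ∈ T, 𝔭' ≠ 𝔭 → ∃ z : RingOf K, u - z ^ p ∈ 𝔭'

/-- `K` is a number field with one prime above `p`, its class number is prime to `p`, it is totally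
complex if `p = 2`, and `T` is a finite set of primes of `K` not above `p` such that for all `𝔭 ∈ T`
some unit of `K` is a `p`-th power modulo all members of `T` but `𝔭`. -/
structure Good (p : ℕ) (K : Ext) (T : Set (Ideal (RingOf K))) : Prop where
  finite : FiniteDimensional ℚ K
  infinity : p ≠ 2 ∨ IsTotallyComplex K
  one : OnePrimeAbove p K
  cls : ¬ p ∣ Nat.card (ClassGroup (𝓞 K))
  fin : T.Finite
  tame : ∀ 𝔭 ∈ T, Independent p K T 𝔭

/-- `Q` is not above `p`, and its restriction to `K` is not in `T` and its norm is `1` modulo `p`. -/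
def Away (p : ℕ) (K : Ext) (T : Set (Ideal (RingOf K))) (Q : Ideal ZBar) : Prop :=
  Q.IsMaximal ∧ (p : ZBar) ∉ Q ∧ below K Q ∉ T ∧ p ∣ Nat.card (RingOf K ⧸ below K Q) - 1

section
variable {A : Type} [CommRing A] {n : ℕ}

/-- The matrix `ρ σ`. -/
noncomputable def mat (ρ : AbsGal →* GL (Fin n) A) (σ : AbsGal) : Matrix (Fin n) (Fin n) A := ρ σ

/-- The matrix `X` modulo the maximal ideal has only one eigenvalue, the reduction of `a`. -/
def OneEigenvalue [IsLocalRing A] (a : A) (X : Matrix (Fin n) (Fin n) A) : Prop :=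
  ∃ M : ℕ, ∀ i j, ((X - a • (1 : Matrix (Fin n) (Fin n) A)) ^ M) i j ∈ maximalIdeal A

/-- `ρ` is continuous, for all `σ` in the absolute Galois group of `K` the reduction of `ρ σ` has only
one eigenvalue, which lifts to `a ∈ A`, and the inertia groups over `K` at all primes not above `p` and
not in `T` whose norm is `1` modulo `p` act by scalars. -/
structure Admissible [IsLocalRing A] [TopologicalSpace A] (p : ℕ) (K : Ext)
    (T : Set (Ideal (RingOf K))) (ρ : AbsGal →* GL (Fin n) A) : Prop where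
  cont : ∀ i j, Continuous fun σ => mat ρ σ i j
  res : ∀ σ ∈ GalOf K, ∃ a : Aˣ, OneEigenvalue (a : A) (mat ρ σ)
  ram : ∀ Q, Away p K T Q → ∀ σ ∈ Inertia Q, σ ∈ GalOf K →
    ∃ c : A, mat ρ σ = c • (1 : Matrix (Fin n) (Fin n) A)

/-- The stronger condition without scalars: over `K` the representation `ρ` is residually unipotent,
and unramified at all primes not above `p` and not in `T` whose norm is `1` modulo `p`. -/
def Unipotent [IsLocalRing A] (p : ℕ) (K : Ext) (T : Set (Ideal (RingOf K)))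
    (ρ : AbsGal →* GL (Fin n) A) : Prop :=
  (∀ σ ∈ GalOf K, OneEigenvalue 1 (mat ρ σ)) ∧
  ∀ Q, Away p K T Q → ∀ σ ∈ Inertia Q, σ ∈ GalOf K → mat ρ σ = 1

/-- The action of `σ` on `V = F ^ n`. -/
noncomputable def act (F : Type) [Field F] [Algebra A F] (ρ : AbsGal →* GL (Fin n) A) (σ : AbsGal)
    (v : Fin n → F) : Fin n → F :=
  ((mat ρ σ).map (algebraMap A F)) *ᵥ v

/-- The restriction of `V` to `D` is irreducible. -/
def IrreducibleOn (F : Type) [Field F] [Algebra A F] (ρ : AbsGal →* GL (Fin n) A) (D : Set AbsGal) :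
    Prop :=
  ∀ W : Submodule F (Fin n → F), (∀ σ ∈ D, ∀ w ∈ W, act F ρ σ w ∈ W) → W = ⊥ ∨ W = ⊤

/-- `v` is an eigenvector for all members of `D`. -/
def Eigenvector (F : Type) [Field F] [Algebra A F] (ρ : AbsGal →* GL (Fin n) A) (D : Set AbsGal)
    (v : Fin n → F) : Prop :=
  v ≠ 0 ∧ ∀ δ ∈ D, ∃ c : F, act F ρ δ v = c • v

/-- A subgroup of finite index of the group `I` preserves a line of `V`; in dimension two this says
that the restriction of `V` to `I` is potentially reducible. -/
def PotentialLine (F : Type) [Field F] [Algebra A F] (ρ : AbsGal →* GL (Fin n) A)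
    (I : Subgroup AbsGal) : Prop :=
  ∃ (I' : Subgroup AbsGal) (v : Fin n → F), I' ≤ I ∧ I'.relIndex I ≠ 0 ∧ Eigenvector F ρ I' v

/-- `V` is potentially abelian: the image of some open normal subgroup is commutative. -/
def PotentiallyAbelian (ρ : AbsGal →* GL (Fin n) A) : Prop :=
  ∃ S : Subgroup AbsGal, S.Normal ∧ S.FiniteIndex ∧ IsOpen (S : Set AbsGal) ∧
    ∀ σ ∈ S, ∀ τ ∈ S, ρ (σ * τ) = ρ (τ * σ)

/-- The projective image is finite: an open normal subgroup acts by scalars. -/
def ProjectivelyFinite (F : Type) [Field F] [Algebra A F] (ρ : AbsGal →* GL (Fin n) A) : Prop :=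
  ∃ S : Subgroup AbsGal, S.Normal ∧ S.FiniteIndex ∧ IsOpen (S : Set AbsGal) ∧
    ∀ σ ∈ S, ∃ c : F, ∀ w, act F ρ σ w = c • w

/-- The absolute Galois group of a quadratic field preserves a line; in dimension two, for irreducible
`V`, this says that `V` is dihedral. -/
def Dihedral (F : Type) [Field F] [Algebra A F] (ρ : AbsGal →* GL (Fin n) A) : Prop :=
  ∃ (T : Subgroup AbsGal) (v : Fin n → F), T.index = 2 ∧ IsOpen (T : Set AbsGal) ∧
    Eigenvector F ρ T v

/-- The projective image of `E` is contained in the projective image of `D`. -/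
def ProjectiveImage (ρ : AbsGal →* GL (Fin n) A) (D E : Set AbsGal) : Prop :=
  ∀ g ∈ E, ∃ δ ∈ D, ∃ c : A, mat ρ g = c • mat ρ δ

/-- The image of `E` is contained in the image of `D`. -/
def Image (ρ : AbsGal →* GL (Fin n) A) (D E : Set AbsGal) : Prop :=
  ∀ g ∈ E, ∃ δ ∈ D, mat ρ g = mat ρ δ

/-- If `V` is irreducible, its restriction to the decomposition group at `P` is irreducible, and if a
subgroup of finite index of the inertia group at `P` preserves a line, then `V` is potentially abelian,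
and in dimension two it is projectively finite or dihedral. -/
def Irreducibility (F : Type) [Field F] [Algebra A F] (ρ : AbsGal →* GL (Fin n) A)
    (P : Ideal ZBar) : Prop :=
  IrreducibleOn F ρ Set.univ → IrreducibleOn F ρ (Decomposition P) ∧
    (PotentialLine F ρ (Inertia P) →
      PotentiallyAbelian ρ ∧ (n = 2 → ProjectivelyFinite F ρ ∨ Dihedral F ρ))

/-- The conclusion of the theorem for the representation `ρ` and the prime `P` above `p`:
* the projective images of the inertia group at `P` over `K` and of `Gal(ℚ̄/K)` agree;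
* the projective images of the decomposition group at `P` and of `Gal(ℚ̄/ℚ)` agree;
* the same for the images themselves, if `ρ` is unipotent;
* the statements on irreducible `V` in the preceding definition. -/
structure GlobalIsLocal [IsLocalRing A] (p : ℕ) (K : Ext) (T : Set (Ideal (RingOf K)))
    (ρ : AbsGal →* GL (Fin n) A) (P : Ideal ZBar) : Prop where
  inertia : ProjectiveImage ρ (Inertia P ⊓ GalOf K : Subgroup AbsGal) (GalOf K)
  decomposition : ProjectiveImage ρ (Decomposition P) Set.univ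
  linear_inertia : Unipotent p K T ρ → Image ρ (Inertia P ⊓ GalOf K : Subgroup AbsGal) (GalOf K)
  linear_decomposition : Unipotent p K T ρ → Image ρ (Decomposition P) Set.univ
  irreducible : ∀ (F : Type) [Field F] [Algebra A F] [IsFractionRing A F], Irreducibility F ρ P

end

/-- The subfields `K` of the field of `p ^ (r + 1)`-th roots of unity with class number prime to `p`
(and totally complex if `p = 2`) are good, with `T` empty. -/
def SubfieldsGood (p : ℕ) : Prop :=
  ∀ (r : ℕ) (C K : Ext), IsCyclotomicExtension {p ^ (r + 1)} ℚ C → K ≤ C →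
    (p ≠ 2 ∨ IsTotallyComplex K) → ¬ p ∣ Nat.card (ClassGroup (𝓞 K)) → Good p K ∅

/-- For regular `p ≠ 2` the field of `p`-th roots of unity is good, with `T` the set of the prime
above `q`, where `q` is a primitive root modulo `p` with `q ^ (p - 1) ≢ 1` modulo `p ^ 2`. -/
def PrimitiveRootsGood (p : ℕ) : Prop :=
  ∀ C : Ext, p ≠ 2 → IsCyclotomicExtension {p} ℚ C → ¬ p ∣ Nat.card (ClassGroup (𝓞 C)) →
    ∀ q : ℕ, q.Prime → orderOf (q : ZMod p) = p - 1 → ¬ p ^ 2 ∣ q ^ (p - 1) - 1 →
    Good p C {𝔮 | 𝔮.IsMaximal ∧ (q : RingOf C) ∈ 𝔮}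

/-! ### Proofs -/

theorem Good.nf {p : ℕ} {K : Ext} {T : Set (Ideal (RingOf K))} (hG : Good p K T) : NumberField K := by
  haveI := hG.finite
  exact NumberField.mk

theorem card_class (K : Ext) [NumberField K] : Nat.card (ClassGroup (𝓞 K)) = classNumber K :=
  Nat.card_eq_fintype_card

theorem Good.indep {p : ℕ} {K : Ext} {T : Set (Ideal (RingOf K))} (hG : Good p K T) :
    Pool.Agent.V5helper56.LI.Indep p K T := by
  intro 𝔭 h𝔭
  obtain ⟨h1, h2, u, hu, h3, h4⟩ := hG.tame 𝔭 h𝔭
  obtain ⟨v, hv⟩ := hu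
  refine ⟨h1, h2, v, fun z hz => h3 z ?_, fun 𝔭' h𝔭' hne => ?_⟩
  · rw [← hv]; exact hz
  · obtain ⟨z, hz⟩ := h4 𝔭' h𝔭' hne
    refine ⟨z, ?_⟩
    rw [← hv] at hz
    exact hz

theorem away {p : ℕ} {K : Ext} [NumberField K] {T : Set (Ideal (RingOf K))} {Q : Ideal (𝓞 QBar)}
    (hQ : Q.IsMaximal) (hpQ : (p : 𝓞 QBar) ∉ Q) (hQT : Q.under (𝓞 K) ∉ T)
    (hQn : p ∣ Ideal.absNorm (Q.under (𝓞 K)) - 1) : Away p K T Q := by
  refine ⟨hQ, hpQ, hQT, ?_⟩
  rw [Ideal.absNorm_apply, Submodule.cardQuot_apply] at hQn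
  exact hQn

theorem global {p : ℕ} [Fact p.Prime] {K : Ext} {T : Set (Ideal (RingOf K))} (hG : Good p K T)
    {A : Type} [CommRing A] [IsLocalRing A] [IsNoetherianRing A] [TopologicalSpace A]
    (hA : IsAdic (maximalIdeal A)) (h2 : (p : A) ∈ maximalIdeal A) {n : ℕ}
    {ρ : AbsGal →* GL (Fin n) A} (hρ : Admissible p K T ρ)
    {P : Ideal (𝓞 QBar)} (hP : P.IsMaximal) (hpP : (p : 𝓞 QBar) ∈ P) : GlobalIsLocal p K T ρ P := by
  haveI := hG.finite
  haveI := hG.nf
  have hcls : ¬ p ∣ classNumber K := by rw [← card_class]; exact hG.cls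
  have hI : ∀ g ∈ K.fixingSubgroup, ∃ δ ∈ Pool.Agent.Helper832_EG.inertia P ⊓ K.fixingSubgroup,
      ∃ c : A, (ρ g : Matrix (Fin n) (Fin n) A) = c • (ρ δ : Matrix (Fin n) (Fin n) A) := fun g hg =>
    Pool.Agent.V5helper56.LI.image_inertia_proj K hG.infinity hG.one hcls hG.fin hG.indep hA h2
      hρ.cont hρ.res (fun Q hQ hpQ hQT hQn σ hσ hσK => hρ.ram Q (away hQ hpQ hQT hQn) σ hσ hσK) hP hpP hg
  have hD : ∀ g, ∃ δ ∈ Decomposition P,
      ∃ c : A, (ρ g : Matrix (Fin n) (Fin n) A) = c • (ρ δ : Matrix (Fin n) (Fin n) A) := by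
    intro g
    obtain ⟨δ, hδ, h⟩ := Pool.Agent.V5helper56.LI.image_dec_proj K hG.one hP hpP hI g
    exact ⟨δ, fun x => (hδ x).symm, h⟩
  have hU : Unipotent p K T ρ →
      Image ρ (Inertia P ⊓ GalOf K : Subgroup AbsGal) (GalOf K) ∧
      Image ρ (Decomposition P) Set.univ := by
    intro hU
    have hI1 : ∀ g ∈ K.fixingSubgroup, ∃ δ ∈ Pool.Agent.Helper832_EG.inertia P ⊓ K.fixingSubgroup,
        ρ δ = ρ g := fun g hg =>
      Pool.Agent.V5helper56.LI.image_inertia K hG.infinity hG.one hcls hG.fin hG.indep hA h2 hρ.cont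
        (fun σ hσ => by
          obtain ⟨M, hM⟩ := hU.1 σ hσ
          rw [one_smul] at hM
          exact ⟨M, hM⟩)
        (fun Q hQ hpQ hQT hQn σ hσ hσK => Units.ext (hU.2 Q (away hQ hpQ hQT hQn) σ hσ hσK)) hP hpP hg
    refine ⟨fun g hg => ?_, fun g _ => ?_⟩
    · obtain ⟨δ, hδ, h⟩ := hI1 g hg
      exact ⟨δ, ⟨hδ.1, hδ.2⟩, congrArg Units.val h.symm⟩
    · obtain ⟨δ, hδ, h⟩ := Pool.Agent.V5helper56.LI.image_dec K hG.one hP hpP hI1 g
      exact ⟨δ, fun x => (hδ x).symm, congrArg Units.val h.symm⟩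
  refine ⟨fun g hg => ?_, fun g _ => hD g, fun h => (hU h).1, fun h => (hU h).2,
    fun F _ _ _ hirr => ⟨fun W hW => hirr W fun σ _ w hw => ?_, fun hL => ?_⟩⟩
  · obtain ⟨δ, hδ, h⟩ := hI g hg
    exact ⟨δ, ⟨hδ.1, hδ.2⟩, h⟩
  · obtain ⟨δ, hδ, c, hc⟩ := hD σ
    have h1 : act F ρ σ w = (algebraMap A F c) • act F ρ δ w := by
      unfold act mat
      rw [hc, ← smul_mulVec]
      congr 1
      ext i j
      rw [Matrix.map_apply, Matrix.smul_apply, Matrix.smul_apply, smul_eq_mul, smul_eq_mul, map_mul,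
        Matrix.map_apply]
    rw [h1]
    exact W.smul_mem _ (hW δ hδ w hw)
  · obtain ⟨I', v, hI', hfin, hv, hline⟩ := hL
    have hNo : IsOpen (K.fixingSubgroup : Set AbsGal) := IntermediateField.fixingSubgroup_isOpen K
    have hNf : Finite (AbsGal ⧸ K.fixingSubgroup) := Subgroup.quotient_finite_of_isOpen _ hNo
    refine ⟨?_, ?_⟩
    · obtain ⟨S, s1, s2, s3, s4⟩ := Pool.Agent.V5helper56.LI.pot_line (F := F) K.fixingSubgroup
        (Pool.Agent.Helper832_EG.inertia P) I' hNf hA hρ.cont hI hfin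
        (fun W hW => hirr W fun σ _ => hW σ) hv (fun δ hδ _ => hline δ hδ)
      exact ⟨S, s1, s2, s3, fun σ hσ τ hτ => by rw [map_mul, map_mul]; exact s4 σ hσ τ hτ⟩
    rintro rfl
    rcases Pool.Agent.V5helper56.LI.pot_red (F := F) K.fixingSubgroup
      (Pool.Agent.Helper832_EG.inertia P) I' hNf hA hρ.cont hI hfin
      (fun W hW => hirr W fun σ _ => hW σ) hv (fun δ hδ _ => hline δ hδ) with h | h
    · exact Or.inl h
    · obtain ⟨T', h3, h4, h5⟩ := h
      exact Or.inr ⟨T', v, h3, h4, hv, h5⟩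

theorem subfieldsGood (p : ℕ) [hp : Fact p.Prime] : SubfieldsGood p := by
  intro r C K hC hKC hinf hcl
  haveI := hC
  haveI : NumberField C := IsCyclotomicExtension.numberField {p ^ (r + 1)} ℚ C
  haveI hKf : FiniteDimensional ℚ K := by
    haveI : FiniteDimensional ℚ C.toSubalgebra.toSubmodule := (inferInstance : FiniteDimensional ℚ C)
    exact Submodule.finiteDimensional_of_le (S₁ := K.toSubalgebra.toSubmodule)
      (S₂ := C.toSubalgebra.toSubmodule) hKC
  haveI : NumberField K := NumberField.mk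
  refine ⟨hKf, hinf, fun 𝔭 𝔮 h𝔭 h𝔮 hp𝔭 hp𝔮 => ?_, hcl, Set.finite_empty,
    fun 𝔭 h => absurd h (Set.notMem_empty 𝔭)⟩
  have key : ∀ 𝔭 : Ideal (𝓞 K), 𝔭.IsPrime → (p : 𝓞 K) ∈ 𝔭 → ∃ P : Ideal (𝓞 QBar), P.IsMaximal ∧
      (p : 𝓞 QBar) ∈ P ∧ P.comap (algebraMap (𝓞 K) (𝓞 QBar)) = 𝔭 := by
    intro 𝔭 h𝔭 hp𝔭
    haveI := h𝔭
    have hne : 𝔭 ≠ ⊥ := by
      rintro rfl
      rw [Ideal.mem_bot, Nat.cast_eq_zero] at hp𝔭
      exact hp.out.ne_zero hp𝔭
    haveI : 𝔭.IsMaximal := h𝔭.isMaximal hne
    haveI : Algebra.IsIntegral (𝓞 K) (𝓞 QBar) := Algebra.IsIntegral.tower_top (R := ℤ)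
    obtain ⟨P, hP, hPl⟩ := Ideal.exists_maximal_ideal_liesOver_of_isIntegral (S := 𝓞 QBar) 𝔭
    have hover : 𝔭 = P.comap (algebraMap (𝓞 K) (𝓞 QBar)) := hPl.over
    refine ⟨P, hP, ?_, hover.symm⟩
    rw [hover, Ideal.mem_comap, map_natCast] at hp𝔭
    exact hp𝔭
  obtain ⟨P, hP, hpP, hP𝔭⟩ := key 𝔭 h𝔭 hp𝔭
  obtain ⟨Q, hQ, hpQ, hQ𝔮⟩ := key 𝔮 h𝔮 hp𝔮
  haveI := hP.isPrime
  haveI := hQ.isPrime
  have h1 : P.comap (algebraMap (𝓞 C) (𝓞 QBar)) = Q.comap (algebraMap (𝓞 C) (𝓞 QBar)) := by
    refine Pool.Agent.V5helper56.LI.cyc_one (p := p) r inferInstance inferInstance ?_ ?_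
    · rw [Ideal.mem_comap, map_natCast]; exact hpP
    · rw [Ideal.mem_comap, map_natCast]; exact hpQ
  have h3 : P.comap (algebraMap (𝓞 K) (𝓞 QBar)) = Q.comap (algebraMap (𝓞 K) (𝓞 QBar)) := by
    ext x
    rw [Ideal.mem_comap, Ideal.mem_comap]
    let y : 𝓞 C := ⟨⟨(x : QBar), hKC (x : K).2⟩, by
      have hx : IsIntegral ℤ (x : K) := x.2
      have h2 : IsIntegral ℤ ((x : K) : QBar) := hx.map (K.val.toIntAlgHom)
      exact (isIntegral_algHom_iff (C.val.restrictScalars ℤ) Subtype.val_injective).1 h2⟩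
    have hy : algebraMap (𝓞 C) (𝓞 QBar) y = algebraMap (𝓞 K) (𝓞 QBar) x := by
      apply RingOfIntegers.ext
      rfl
    have h2 : y ∈ P.comap (algebraMap (𝓞 C) (𝓞 QBar)) ↔ y ∈ Q.comap (algebraMap (𝓞 C) (𝓞 QBar)) := by
      rw [h1]
    rw [Ideal.mem_comap, Ideal.mem_comap, hy] at h2
    exact h2
  exact hP𝔭.symm.trans (h3.trans hQ𝔮)

theorem primitiveRootsGood (p : ℕ) [hp : Fact p.Prime] : PrimitiveRootsGood p := by
  intro C hp2 hC hcl q hq hord hq2
  haveI := hC
  haveI : NumberField C := IsCyclotomicExtension.numberField {p} ℚ C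
  have huniq : ∀ 𝔮 ∈ {𝔮 : Ideal (𝓞 C) | 𝔮.IsMaximal ∧ (q : 𝓞 C) ∈ 𝔮},
      ∀ 𝔮' ∈ {𝔮 : Ideal (𝓞 C) | 𝔮.IsMaximal ∧ (q : 𝓞 C) ∈ 𝔮}, 𝔮 = 𝔮' := fun 𝔮 h 𝔮' h' =>
    Pool.Agent.V5helper56.LI.cyc_inert (p := p) hq hord h.1.isPrime h'.1.isPrime h.2 h'.2
  refine ⟨inferInstance, Or.inl hp2, fun 𝔭 𝔮 h𝔭 h𝔮 hp𝔭 hp𝔮 => ?_, hcl, Set.Subsingleton.finite fun 𝔮 h 𝔮' h' =>
    huniq 𝔮 h 𝔮' h', fun 𝔮 h => ?_⟩
  · haveI : IsCyclotomicExtension {p ^ (0 + 1)} ℚ C := by rw [zero_add, pow_one]; exact hC
    exact Pool.Agent.V5helper56.LI.cyc_one (p := p) 0 h𝔭 h𝔮 hp𝔭 hp𝔮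
  · obtain ⟨h1, u, hu⟩ := Pool.Agent.V5helper56.LI.cyc_unit (p := p) hq hord hq2 h.1 h.2
    exact ⟨h.1, h1, (u : 𝓞 C), u.isUnit, hu, fun 𝔮' h' hne => absurd (huniq 𝔮' h' 𝔮 h) hne⟩

/-- **Global images are local, for residually unipotent representations of `Gal(ℚ̄/ℚ)`.** -/
theorem result (p : ℕ) [Fact p.Prime] :
    (∀ (K : Ext) (T : Set (Ideal (RingOf K))), Good p K T →
      ∀ (A : Type) [CommRing A] [IsLocalRing A] [IsNoetherianRing A] [TopologicalSpace A],
      IsAdic (maximalIdeal A) → (p : A) ∈ maximalIdeal A →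
      ∀ (n : ℕ) (ρ : AbsGal →* GL (Fin n) A), Admissible p K T ρ →
      ∀ P : Ideal ZBar, P.IsMaximal → (p : ZBar) ∈ P → GlobalIsLocal p K T ρ P) ∧
    SubfieldsGood p ∧ PrimitiveRootsGood p :=
  ⟨fun _ _ hG _ _ _ _ _ hA h2 _ _ hρ _ hP hpP => global hG hA h2 hρ hP hpP, subfieldsGood p,
    primitiveRootsGood p⟩

end Pool.Agent.Results.MP_b583a4_nt.LocalImages
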