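import Pool.Agent.V5helper57.OT.Glue
import Pool.Agent.V5helper57.OT.Cnt
import Pool.Agent.V5helper9.OT.NP
import Pool.Agent.V5helper18.OT.NIL
import Pool.Agent.V5helper28.OT.TRI
import Pool.Agent.V5helper44.OT.NT
import Pool.Agent.V5helper70.OT.TWO
import Pool.Agent.V5helper70.OT.PAR

/-!
# Ordinary two-dimensional representations with scalar reduction: pairs and triples of tame primes

Let `p` be an odd prime. We consider continuous `ρ : Gal(ℚbar/ℚ) → GL_2(A)`, where `A` is a complete discrete valuation ring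
with finite residue field in which `p` has valuation `e ≥ 1`, whose reduction is twice a character, unramified outside `p`, a set
`T` of primes congruent to `1` modulo `p` and finitely many other primes not congruent to `1` modulo `p`, such that the
decomposition group at `p` preserves a line, and such that `2 e < p - 1` or the inertia groups at the primes in `T` act
unipotently. We show that all these `ρ` are reducible for `T = {q_0, q_1}`, for the proportion `(1 - 1/p)²` of all primes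
`q_0 ≡ 1 mod p` and the proportion `(1 - 1/p)²` of all primes `q_1 ≡ 1 mod p` (which depend on `q_0`), and for
`T = {q_0, q_1, q_2}` for these `q_0`, `q_1` and the proportion `δ(p) > 0` of all primes `q_2 ≡ 1 mod p` (which depend on `q_0` and
`q_1`), `δ(3) = 8/243` and `δ(p) = (1 - 1/p)² (1 - 2/p) (1 - 3/p) (1 - 4/p)` for `p ≥ 5`.

Proof. For three primes we use the explicit condition of `LinkingPolynomial` (a polynomial in the linking numbers
`A_ij = χ_j(q_i)`, `c_j = χ_j(p)`, `u_i = (q_i - 1) / p`), for two primes the first alternative of `OrdinaryScalar`. The densities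
follow from the joint equidistribution (up to scaling) of the linking numbers of a new prime with the given ones
(`Pool.Agent.Q202.QT.densN`, from the theorem of Chebotarev) and a count of the solutions.
-/

set_option autoImplicit false

open NumberField Matrix IsLocalRing

namespace Pool.Agent.Results.MP_b583a4_nt.OrdinaryTriples

open Finset Filter
open Pool.Agent.W569.TG (lk)
open Pool.Agent.Q202.RT Pool.Agent.Q202.QT
open Pool.Agent.V5helper57.CP (Lk Adm step)
open Pool.Agent.V5helper57.OT (Good S_NT' cnt1 cnt2 cnt3 del_le good_scale pair triple)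
open Pool.Agent.Results.MP_b583a4_nt.OrdinaryScalar (UnramifiedOutside ResiduallyScalar Decomposition StableLine
  UnipotentInertia)

/-- `AlwaysReducible p T`: for all finite sets `S` of primes `l ≠ p` whose members congruent to `1` modulo `p` are in `T`, all
complete discrete valuation rings `A` with finite residue field in which `p` has valuation `e ≥ 1`, every continuous
`ρ : Gal(ℚbar/ℚ) → GL_2(A)`, unramified outside `S` and `p`, residually twice a character, such that `2 e < p - 1` or the inertia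
groups at the primes in `S` congruent to `1` modulo `p` act unipotently, and such that the decomposition group at a prime above
`p` preserves a line, preserves a line. -/
def AlwaysReducible (p : ℕ) (T : Set ℕ) : Prop :=
  ∀ S : Finset ℕ, (∀ l ∈ S, l.Prime ∧ l ≠ p) → (∀ l ∈ S, p ∣ l - 1 → l ∈ T) →
    ∀ (A : Type) [CommRing A] [IsDomain A] [IsDiscreteValuationRing A] [IsAdicComplete (maximalIdeal A) A]
      [TopologicalSpace A], IsAdic (maximalIdeal A) → Finite (ResidueField A) →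
    ∀ e : ℕ, 1 ≤ e → (p : A) ∈ maximalIdeal A ^ e → (p : A) ∉ maximalIdeal A ^ (e + 1) →
    ∀ ρ : Gal(AlgebraicClosure ℚ/ℚ) →* GL (Fin 2) A, Continuous ρ → UnramifiedOutside p S ρ → ResiduallyScalar ρ →
      (2 * e < p - 1 ∨ UnipotentInertia p S ρ) →
      ∀ P : Ideal (𝓞 (AlgebraicClosure ℚ)), P.IsMaximal → (p : 𝓞 (AlgebraicClosure ℚ)) ∈ P →
        StableLine ρ (Decomposition P) → StableLine ρ Set.univ

open Classical in
/-- The primes `q ≤ x` with `p ∣ q - 1`. -/
noncomputable def Pr (p x : ℕ) : Finset ℕ := (range (x + 1)).filter fun q => q.Prime ∧ p ∣ q - 1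

open Classical in
/-- `Share p δ R T`: the primes `q ≡ 1 mod p`, `q ∉ T`, such that `T ∪ {q}` has the property `R` have at least the proportion `δ`
(lower density) among all primes `q ≡ 1 mod p`. -/
def Share (p : ℕ) (δ : ℝ) (R : Set ℕ → Prop) (T : Set ℕ) : Prop :=
  ∀ ε : ℝ, 0 < ε → ∀ᶠ x : ℕ in atTop, (δ - ε) * ((Pr p x).card : ℝ) ≤
    (((Pr p x).filter fun q => q ∉ T ∧ R (insert q T)).card : ℝ)

/-- `δ(3) = 8/243`, `δ(p) = (1 - 1/p)² (1 - 2/p) (1 - 3/p) (1 - 4/p)` for `p > 3` -/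
noncomputable def del (p : ℕ) : ℝ :=
  if p = 3 then 8 / 243 else (1 - 1 / (p : ℝ)) ^ 2 * (1 - 2 / (p : ℝ)) * (1 - 3 / (p : ℝ)) * (1 - 4 / (p : ℝ))

theorem Pr_eq (p x : ℕ) [Fact p.Prime] : Pr p x = P1 p x := by
  ext l
  rw [mem_P1, Pr, mem_filter, mem_range]
  constructor
  · rintro ⟨h1, h2, h3⟩
    exact ⟨by omega, h2, h3⟩
  · rintro ⟨h1, h2, h3⟩
    exact ⟨by omega, h2, h3⟩

theorem inj1 {a : ℕ} : Function.Injective ![a] := fun i j _ => Subsingleton.elim (α := Fin 1) i j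

theorem inj2 {a b : ℕ} (h : b ≠ a) : Function.Injective ![a, b] := by
  intro i j hij
  fin_cases i <;> fin_cases j <;> simp_all

theorem inj3 {a b c : ℕ} (h : b ≠ a) (h1 : c ≠ a) (h2 : c ≠ b) :
    Function.Injective ![a, b, c] := by
  intro i j hij
  fin_cases i <;> fin_cases j <;> simp_all [eq_comm]

theorem nt' : S_NT' := Pool.Agent.V5helper44.OT.t_NT Pool.Agent.V5helper18.OT.NIL.t_NIL Pool.Agent.V5helper70.OT.t_TWO
  Pool.Agent.V5helper70.OT.t_PAR Pool.Agent.V5helper28.OT.t_TRI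

section
variable {p : ℕ} [hpF : Fact p.Prime]

theorem Lk_self {χ : ∀ j : ℕ, (ZMod j)ˣ →* Multiplicative (ZMod p)} (l : ℕ) : Lk χ l p = lv p l := if_pos rfl

theorem Lk_ne {χ : ∀ j : ℕ, (ZMod j)ˣ →* Multiplicative (ZMod p)} (l : ℕ) {q : ℕ} (hq : q.Prime ∧ p ∣ q - 1) :
    Lk χ l q = lk χ l q := if_neg (Pool.Agent.V5helper57.CP.ne_p hq.1 hq.2)

/-- the last step -/
theorem last (hp2 : p ≠ 2) (χ : ∀ j : ℕ, (ZMod j)ˣ →* Multiplicative (ZMod p)) (hχ : Kr χ)
    {q₀ q₁ : ℕ} (h0 : q₀.Prime ∧ p ∣ q₀ - 1) (h1 : q₁.Prime ∧ p ∣ q₁ - 1) (n01 : q₁ ≠ q₀)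
    (u0 : lv p q₀ ≠ 0) (u1 : lv p q₁ ≠ 0)
    (hD : lk χ q₀ q₁ / lv p q₀ * lk χ p q₀ ≠ lk χ q₁ q₀ / lv p q₁ * lk χ p q₁) :
    Share p (Pool.Agent.V5helper57.OT.del p) (AlwaysReducible p) (insert q₁ (insert q₀ ∅)) := by
  classical
  have hp : p.Prime := hpF.out
  intro ε hε
  have np : ∀ {q : ℕ}, q.Prime ∧ p ∣ q - 1 → q ≠ p := fun h => Pool.Agent.V5helper57.CP.ne_p h.1 h.2
  have hst := step (p := p) hp2 χ hχ ![p, q₀, q₁] (Or.inl rfl) (fun i => by
      fin_cases i
      · exact h0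
      · exact h1) (inj3 (np h0) (np h1) n01)
    (fun w s => s 0 ≠ 0 ∧ Good (lk χ q₀ q₁ / lv p q₀) (w 1 / lv p q₀) (lk χ q₁ q₀ / lv p q₁) (w 2 / lv p q₁) (s 1 / s 0)
      (s 2 / s 0) (lk χ p q₀) (lk χ p q₁) (w 0))
    (fun w s h hw => by
      subst hw
      have h2 := h.2.2.2.1
      apply h2
      rw [Pi.zero_apply, Pi.zero_apply, zero_div, zero_div])
    (fun w s c hc h => by
      refine ⟨h.1, ?_⟩
      have := good_scale c hc h.2
      rw [← mul_div_assoc, ← mul_div_assoc] at this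
      exact this)
    (Pool.Agent.V5helper57.OT.del p) (del_le hp hp2) (by
      refine (cnt3 hp2 u0 u1 hD).trans (le_of_eq ?_)
      congr!) ε hε
  filter_upwards [hst] with x hx
  rw [Pr_eq]
  refine le_trans hx (Nat.cast_le.2 (card_le_card ?_))
  intro q hq
  simp only [Finset.mem_filter] at hq
  obtain ⟨g1, g2, g3, g4⟩ := hq
  obtain ⟨-, hq'⟩ := mem_P1.1 g1
  have m0 : q ≠ p := g2 0
  have m1 : q ≠ q₀ := g2 1
  have m2 : q ≠ q₁ := g2 2
  simp only [Finset.mem_filter]
  refine ⟨g1, ?_, ?_⟩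
  · simp only [Set.mem_insert_iff, Set.mem_empty_iff_false, or_false, not_or]
    exact ⟨m2, m1⟩
  · refine triple nt' Pool.Agent.V5helper9.OT.t_NP hp2 χ ![q₀, q₁, q] ?_ (inj3 n01 m1 m2) ?_ ?_ _ ?_
    · intro i
      fin_cases i
      · exact (hχ _ h0.1 h0.2).1
      · exact (hχ _ h1.1 h1.2).1
      · exact (hχ _ hq'.1 hq'.2).1
    · intro i
      fin_cases i
      · exact u0
      · exact u1
      · have k3 : Lk χ q p ≠ 0 := g3
        rw [Lk_self] at k3
        exact k3
    · have k := g4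
      simp only [Matrix.cons_val_zero, Matrix.cons_val_one, Matrix.cons_val, Lk_self, Lk_ne _ h0, Lk_ne _ h1, Lk_ne _ hq'] at k
      exact k
    · rintro l (rfl | rfl | rfl | h)
      · exact ⟨2, rfl⟩
      · exact ⟨1, rfl⟩
      · exact ⟨0, rfl⟩
      · exact absurd h (Set.notMem_empty l)

/-- the second step -/
theorem second (hp2 : p ≠ 2) (χ : ∀ j : ℕ, (ZMod j)ˣ →* Multiplicative (ZMod p)) (hχ : Kr χ)
    {q₀ : ℕ} (h0 : q₀.Prime ∧ p ∣ q₀ - 1) (u0 : lv p q₀ ≠ 0) (c0 : lk χ p q₀ ≠ 0) :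
    Share p ((1 - 1 / (p : ℝ)) ^ 2) (fun T => AlwaysReducible p T ∧
      Share p (Pool.Agent.V5helper57.OT.del p) (AlwaysReducible p) T) (insert q₀ ∅) := by
  classical
  have hp : p.Prime := hpF.out
  have hp0 : (0 : ℝ) < p := by exact_mod_cast hp.pos
  intro ε hε
  have np : ∀ {q : ℕ}, q.Prime ∧ p ∣ q - 1 → q ≠ p := fun h => Pool.Agent.V5helper57.CP.ne_p h.1 h.2
  have hst := step (p := p) hp2 χ hχ ![p, q₀] (Or.inl rfl) (fun i => by
      fin_cases i
      exact h0) (inj2 (np h0))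
    (fun w s => s 0 ≠ 0 ∧ w 1 / lv p q₀ * lk χ p q₀ ≠ s 1 / s 0 * w 0)
    (fun w s h hw => by
      subst hw
      apply h.2
      rw [Pi.zero_apply, Pi.zero_apply, zero_div, zero_mul, mul_zero])
    (fun w s c hc h => by
      refine ⟨h.1, fun h' => h.2 (mul_left_cancel₀ hc ?_)⟩
      linear_combination h')
    ((1 - 1 / (p : ℝ)) ^ 2) (by
      have hb : 1 / (p : ℝ) ≤ 1 := by
        rw [div_le_one hp0]
        exact_mod_cast hp.one_lt.le
      exact pow_le_one₀ (by linarith) (by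
        have : 0 ≤ 1 / (p : ℝ) := by positivity
        linarith)) (by
      have hc := cnt2 p u0 c0
      have hc' : (p : ℝ) ^ 2 * ((p : ℝ) - 1) ^ 2 ≤
          (((univ : Finset ((Fin 2 → ZMod p) × (Fin 2 → ZMod p))).filter fun z =>
            z.2 0 ≠ 0 ∧ z.1 1 / lv p q₀ * lk χ p q₀ ≠ z.2 1 / z.2 0 * z.1 0).card : ℝ) := by
        have h4 : ((p - 1 : ℕ) : ℝ) = (p : ℝ) - 1 := by
          rw [Nat.cast_sub hp.one_lt.le, Nat.cast_one]
        rw [← h4]
        refine le_trans (le_of_eq (by push_cast; rfl)) ((Nat.cast_le (α := ℝ).2 hc).trans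
          (le_of_eq ?_))
        congr!
      have h5 : (1 - 1 / (p : ℝ)) ^ 2 * ((p : ℝ) ^ (1 + 1) * (p : ℝ) ^ (1 + 1)) =
          (p : ℝ) ^ 2 * ((p : ℝ) - 1) ^ 2 := by
        field_simp
        ring
      rw [h5]
      refine hc'.trans (le_of_eq ?_)
      congr!) ε hε
  filter_upwards [hst] with x hx
  rw [Pr_eq]
  refine le_trans hx (Nat.cast_le.2 (card_le_card ?_))
  intro q hq
  simp only [Finset.mem_filter] at hq
  obtain ⟨g1, g2, g3, g4⟩ := hq
  obtain ⟨-, hq'⟩ := mem_P1.1 g1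
  have m0 : q ≠ p := g2 0
  have m1 : q ≠ q₀ := g2 1
  have u1 : lv p q ≠ 0 := by
    have k3 : Lk χ q p ≠ 0 := g3
    rw [Lk_self] at k3
    exact k3
  have hD : lk χ q₀ q / lv p q₀ * lk χ p q₀ ≠ lk χ q q₀ / lv p q * lk χ p q := by
    have k := g4
    simp only [Matrix.cons_val_zero, Matrix.cons_val_one, Lk_self, Lk_ne _ h0, Lk_ne _ hq'] at k
    exact k
  simp only [Finset.mem_filter]
  refine ⟨g1, ?_, ?_, ?_⟩
  · simp only [Set.mem_insert_iff, Set.mem_empty_iff_false, or_false]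
    exact m1
  · refine pair hp2 χ (a := q₀) (b := q) (hχ _ h0.1 h0.2).1 (hχ _ hq'.1 hq'.2).1 u0 u1 hD _ ?_
    rintro l (rfl | rfl | h)
    · exact Or.inr rfl
    · exact Or.inl rfl
    · exact absurd h (Set.notMem_empty l)
  · exact last hp2 χ hχ h0 hq' m1 u0 u1 hD

/-- the first step -/
theorem first (hp2 : p ≠ 2) (χ : ∀ j : ℕ, (ZMod j)ˣ →* Multiplicative (ZMod p)) (hχ : Kr χ) :
    Share p ((1 - 1 / (p : ℝ)) ^ 2) (Share p ((1 - 1 / (p : ℝ)) ^ 2) fun T => AlwaysReducible p T ∧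
      Share p (Pool.Agent.V5helper57.OT.del p) (AlwaysReducible p) T) ∅ := by
  classical
  have hp : p.Prime := hpF.out
  have hp0 : (0 : ℝ) < p := by exact_mod_cast hp.pos
  intro ε hε
  have hst := step (p := p) hp2 χ hχ ![p] (Or.inl rfl) (fun i => i.elim0) inj1
    (fun w s => w 0 ≠ 0 ∧ s 0 ≠ 0)
    (fun w s h hw => h.1 (by rw [hw]; rfl))
    (fun w s c hc h => ⟨mul_ne_zero hc h.1, h.2⟩)
    ((1 - 1 / (p : ℝ)) ^ 2) (by
      have hb : 1 / (p : ℝ) ≤ 1 := by
        rw [div_le_one hp0]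
        exact_mod_cast hp.one_lt.le
      exact pow_le_one₀ (by linarith) (by
        have : 0 ≤ 1 / (p : ℝ) := by positivity
        linarith)) (by
      have hc := cnt1 p
      have hc' : ((p : ℝ) - 1) ^ 2 ≤
          (((univ : Finset ((Fin 1 → ZMod p) × (Fin 1 → ZMod p))).filter fun z =>
            z.1 0 ≠ 0 ∧ z.2 0 ≠ 0).card : ℝ) := by
        have h4 : ((p - 1 : ℕ) : ℝ) = (p : ℝ) - 1 := by
          rw [Nat.cast_sub hp.one_lt.le, Nat.cast_one]
        rw [← h4]
        refine le_trans (le_of_eq (by push_cast; rfl)) ((Nat.cast_le (α := ℝ).2 hc).trans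
          (le_of_eq ?_))
        congr!
      have h5 : (1 - 1 / (p : ℝ)) ^ 2 * ((p : ℝ) ^ (0 + 1) * (p : ℝ) ^ (0 + 1)) =
          ((p : ℝ) - 1) ^ 2 := by
        field_simp
        ring
      rw [h5]
      refine hc'.trans (le_of_eq ?_)
      congr!) ε hε
  filter_upwards [hst] with x hx
  rw [Pr_eq]
  refine le_trans hx (Nat.cast_le.2 (card_le_card ?_))
  intro q hq
  simp only [Finset.mem_filter] at hq
  obtain ⟨g1, g2, g3, g4⟩ := hq
  obtain ⟨-, hq'⟩ := mem_P1.1 g1
  have c0 : lk χ p q ≠ 0 := by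
    have k3 : Lk χ p q ≠ 0 := g3
    rw [Lk_ne _ hq'] at k3
    exact k3
  have u0 : lv p q ≠ 0 := by
    have k3 : Lk χ q p ≠ 0 := g4
    rw [Lk_self] at k3
    exact k3
  simp only [Finset.mem_filter]
  exact ⟨g1, Set.notMem_empty q, second hp2 χ hχ hq' u0 c0⟩

end

/-- **Ordinary representations with scalar reduction, three tame primes.** -/
theorem result (p : ℕ) [Fact p.Prime] (hp2 : p ≠ 2) :
    0 < del p ∧ Share p ((1 - 1 / (p : ℝ)) ^ 2) (Share p ((1 - 1 / (p : ℝ)) ^ 2) fun T => AlwaysReducible p T ∧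
      Share p (del p) (AlwaysReducible p) T) ∅ := by
  have hp : p.Prime := Fact.out
  obtain ⟨χ, hχ, -⟩ := extend (p := p) (fun _ => 1) ∅ (fun j hj => absurd hj (Set.notMem_empty j))
  exact ⟨Pool.Agent.V5helper57.OT.del_pos hp hp2, first hp2 χ hχ⟩

end Pool.Agent.Results.MP_b583a4_nt.OrdinaryTriples
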